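import Pool.Agent.TH970.MDS.Defs

/-!
# Stage lower bound (job MDS-S)
-/

set_option autoImplicit false

namespace Pool.Agent.TH91.MDS

open Pool.Agent.TH970.MDS

lemma z_one {N z a : ℤ} (hN : 0 < N) (ha : 0 < a) (h2 : a < 2 * N) (hz : a = N * z) : z = 1 := by
  have h1 : 0 < N * z := by rw [← hz]; exact ha
  have h3 : 0 < z := (pos_iff_pos_of_mul_pos h1).1 hN
  have h4 : N * z < N * 2 := by rw [← hz]; linarith
  have h5 : z < 2 := lt_of_mul_lt_mul_left h4 hN.le
  omega

lemma aux_th {θ v C : ℝ} (hC : 3 ≤ C) (h0 : 0 < θ) (h1 : θ ^ 2 + 1 = C * θ) (hv : v < θ)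
    (h2 : θ < 1 / 2) : v ≤ (1 - v) * (1 - θ) := by
  have h3 : θ ≤ (1 - θ) ^ 2 := by
    have h4 : 3 * θ ≤ C * θ := mul_le_mul_of_nonneg_right hC h0.le
    have h5 : (1 - θ) ^ 2 = C * θ - 2 * θ := by rw [← h1]; ring
    linarith
  have h6 : (1 - θ) * (1 - θ) ≤ (1 - v) * (1 - θ) :=
    mul_le_mul_of_nonneg_right (by linarith) (by linarith)
  have h7 : (1 - θ) ^ 2 = (1 - θ) * (1 - θ) := sq _
  linarith

lemma aux_h {N s h m : ℤ} (hN : 0 < N) (hs : 0 ≤ s) (hm : h - (N - s) = 2 * N * m) :
    N - s ≤ |h| := by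
  rcases le_or_gt 0 m with hm0 | hm0
  · have : 0 ≤ 2 * N * m := mul_nonneg (by omega) hm0
    exact le_trans (by linarith) (le_abs_self h)
  · have h1 : 2 * N * m ≤ 2 * N * (-1) := mul_le_mul_of_nonneg_left (by omega) (by omega)
    exact le_trans (by linarith) (neg_le_abs h)

theorem t_S : Pool.Agent.TH970.MDS.StTh → Pool.Agent.TH970.MDS.StCh → Pool.Agent.TH970.MDS.StG →
    Pool.Agent.TH970.MDS.StS := by
  intro hTh hCh hG C hC v hv0 hvt
  obtain ⟨hth0, hth1, hth2, -, -, -, -⟩ := hTh C hC
  obtain ⟨hch0, hch1, hch2, -, -, hch5, -⟩ := hCh C hC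
  set θ := th C with hθ
  have h5 : (2 : ℝ) < √5 := by
    rw [show (2 : ℝ) = √4 by rw [show (4 : ℝ) = 2 ^ 2 by norm_num]; simp]
    exact Real.sqrt_lt_sqrt (by norm_num) (by norm_num)
  have hθh : θ < 1 / 2 := by linarith
  have hvh : v < 1 / 2 := by linarith
  set v1 : ℝ := (v + θ) / 2 with hv1
  have hv1a : v < v1 := by linarith
  have hv1b : v1 < θ := by linarith
  have hv10 : 0 < v1 := by linarith
  obtain ⟨K1, hK1⟩ := hG C hC v hv0 hvt
  obtain ⟨K2, hK2⟩ := hG C hC v1 hv10 hv1b
  obtain ⟨J0, hJ0⟩ := exists_nat_gt (2 * v * v1 / (v1 - v))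
  refine ⟨max K1 K2, max J0 1, le_max_right _ _, ?_⟩
  set J : ℕ := max J0 1 with hJ
  have hJ1 : 1 ≤ J := le_max_right _ _
  have hJr : (1 : ℝ) ≤ J := by exact_mod_cast hJ1
  have hJv : 2 * v * v1 ≤ J * (v1 - v) := by
    have h1 : (J0 : ℝ) ≤ J := by exact_mod_cast le_max_left _ _
    have h2 : 2 * v * v1 / (v1 - v) ≤ J := by linarith
    rwa [div_le_iff₀ (by linarith)] at h2
  intro n hn hodd r g hcop hg hgN hdvd q hq1 hq2 P R
  have hnK1 : K1 ≤ n := le_trans (le_max_left _ _) hn
  have hnK2 : K2 ≤ n := le_trans (le_max_right _ _) hn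
  set N : ℤ := ch C (n + 1) with hN
  set s : ℤ := ch C n with hs
  have hs0 : 0 ≤ s := hch0 n
  have hs1 : 1 ≤ s := by
    rcases hodd with ⟨m, hm⟩
    omega
  have hNs : 2 * s + 1 ≤ N := hch1 n
  have hN3 : 3 ≤ N := by omega
  have hNpos : (0 : ℝ) < N := by exact_mod_cast (by omega : 0 < N)
  have hN3r : (3 : ℝ) ≤ N := by exact_mod_cast hN3
  have hform : N ^ 2 - C * N * s + s ^ 2 = 1 := hch2 n
  have hsθ : (s : ℝ) < θ * N := by
    have h1 := hch5 n
    have h2 : 0 < θ ^ (n + 1) := pow_pos hth0 _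
    linarith
  -- the two integers
  set h : ℤ := q * r - 2 * N * R with hh
  set j : ℤ := q * r * s - P * N with hj
  have hcongr : N ∣ h - j * s := by
    refine ⟨h * (N - C * s) + 0 - (2 * R * s - P) * s, ?_⟩
    have e1 : (1 : ℤ) - s ^ 2 = N * (N - C * s) := by linarith
    have e2 : j = h * s + (2 * R * s - P) * N := by
      rw [hh, hj]; ring
    rw [e2]
    linear_combination h * e1
  have hNr : IsCoprime r N := IsCoprime.of_mul_right_right hcop
  have hr2 : IsCoprime r 2 := IsCoprime.of_mul_right_left hcop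
  have hrodd : Odd r := by
    rw [← Int.not_even_iff_odd]
    intro hev
    obtain ⟨a, b, hab⟩ := hr2
    obtain ⟨c, hc⟩ := hev
    have h1 : 2 * (a * c + b) = 1 := by
      rw [hc] at hab
      linarith
    omega
  have hq2N : q < 2 * N := by
    have : 0 ≤ (J : ℤ) * g := by positivity
    linarith
  have hh0 : h ≠ 0 := by
    intro h0
    have h1 : 2 * N ∣ q * r := ⟨R, by rw [hh] at h0; linarith⟩
    have h2 : 2 * N ∣ q := hcop.symm.dvd_of_dvd_mul_right h1
    have h3 := Int.le_of_dvd (by omega) h2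
    omega
  -- reduction of the goal
  have hx0 : (0 : ℝ) < (q : ℝ) / N := div_pos (by exact_mod_cast (by omega : 0 < q)) hNpos
  have hx2 : (q : ℝ) / N < 2 := by
    rw [div_lt_iff₀ hNpos]
    exact_mod_cast hq2N
  suffices key : v * N ≤ |(j : ℝ) + (q : ℝ) / N * v| * |(h : ℝ)| by
    have e1 : (q : ℝ) * (r * s / N + v / (N : ℝ) ^ 2) - P = ((j : ℝ) + (q : ℝ) / N * v) / N := by
      rw [hj]
      push_cast
      field_simp
      ring
    have e2 : (q : ℝ) * (r / (2 * N : ℝ)) - R = (h : ℝ) / (2 * N) := by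
      rw [hh]
      push_cast
      field_simp
    rw [e1, e2, abs_div, abs_div, abs_of_pos hNpos, abs_of_pos (by linarith : (0 : ℝ) < 2 * N)]
    have e3 : (2 : ℝ) * N * (|(j : ℝ) + (q : ℝ) / N * v| / N * (|(h : ℝ)| / (2 * N))) =
        |(j : ℝ) + (q : ℝ) / N * v| * |(h : ℝ)| / N := by
      field_simp
    rw [e3, le_div_iff₀ hNpos]
    exact key
  have hhabs : (0 : ℝ) < |(h : ℝ)| := abs_pos.mpr (by exact_mod_cast hh0)
  have hxv0 : 0 < (q : ℝ) / N * v := mul_pos hx0 hv0
  by_cases hNj : N ∣ j
  · -- `N` divides `j`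
    have h1 : N ∣ h := by
      have h2 : N ∣ j * s := Dvd.dvd.mul_right hNj s
      have h3 := dvd_add hcongr h2
      simpa using h3
    have h2 : N ∣ q * r := by
      have h3 : q * r = h + N * (2 * R) := by rw [hh]; ring
      rw [h3]
      exact dvd_add h1 (Dvd.intro _ rfl)
    have h3 : N ∣ q := hNr.symm.dvd_of_dvd_mul_right h2
    have h4 : q = N := by
      obtain ⟨z, hz⟩ := h3
      have : z = 1 := z_one (by omega) (by omega) hq2N hz
      rw [hz, this, mul_one]
    have h5' : (q : ℝ) / N = 1 := by rw [h4]; exact div_self hNpos.ne'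
    rw [h5', one_mul]
    have h6 : h = N * (r - 2 * R) := by rw [hh, h4]; ring
    have h7 : (1 : ℤ) ≤ |r - 2 * R| := by
      apply Int.one_le_abs
      intro hc
      rcases hrodd with ⟨m, hm⟩
      omega
    have h8 : (N : ℝ) ≤ |(h : ℝ)| := by
      have : N ≤ |h| := by
        rw [h6, abs_mul, abs_of_pos (by omega : 0 < N)]
        nlinarith
      exact_mod_cast this
    have h9 : v ≤ |(j : ℝ) + v| := by
      rcases le_or_gt 0 j with hj0 | hj0
      · have : (0 : ℝ) ≤ j := by exact_mod_cast hj0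
        rw [abs_of_nonneg (by linarith)]
        linarith
      · obtain ⟨z, hz⟩ := hNj
        have hz1 : z ≤ -1 := by
          by_contra hc
          have : 0 ≤ z := by omega
          have : 0 ≤ N * z := mul_nonneg (by omega) this
          omega
        have hj3 : j ≤ -3 := by
          rw [hz]
          nlinarith
        have hj3r : (j : ℝ) ≤ -3 := by exact_mod_cast hj3
        rw [abs_of_nonpos (by linarith)]
        linarith
    exact mul_le_mul h9 h8 hNpos.le (abs_nonneg _)
  · have hG1 := hK1 n hnK1 j h hcongr hNj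
    have hG2 := hK2 n hnK2 j h hcongr hNj
    rcases lt_trichotomy j 0 with hjn | hj0 | hjp
    · have hjr : (j : ℝ) < 0 := by exact_mod_cast hjn
      have habsj : |(j : ℝ)| = -j := abs_of_neg hjr
      have hjm1 : (j : ℝ) ≤ -1 := by exact_mod_cast (by omega : j ≤ -1)
      by_cases hjJ : j ≤ -(J : ℤ)
      · -- `j ≤ -J`
        have hjJr : (j : ℝ) ≤ -(J : ℝ) := by exact_mod_cast hjJ
        have hxv : (q : ℝ) / N * v < 2 * v := mul_lt_mul_of_pos_right hx2 hv0
        have h1 : (-(j : ℝ)) - 2 * v ≤ |(j : ℝ) + (q : ℝ) / N * v| := by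
          rw [abs_of_nonpos (by linarith)]
          linarith
        have h2 := hG2.1
        rw [habsj] at h2
        -- `(|j| - 2 v) |h| ≥ v N`
        have h3 : v * (-(j : ℝ)) ≤ v1 * (-(j : ℝ) - 2 * v) := by
          have e1 : (J : ℝ) * (v1 - v) ≤ (-(j : ℝ)) * (v1 - v) :=
            mul_le_mul_of_nonneg_right (by linarith) (by linarith)
          have e2 : v1 * (-(j : ℝ) - 2 * v) - v * (-(j : ℝ)) =
              (-(j : ℝ)) * (v1 - v) - 2 * v * v1 := by ring
          linarith
        have h4 : 0 < -(j : ℝ) - 2 * v := by linarith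
        have h5' : v * N ≤ (-(j : ℝ) - 2 * v) * |(h : ℝ)| := by
          -- multiply by `v1`
          have h6 : v1 * (v * N) ≤ v1 * ((-(j : ℝ) - 2 * v) * |(h : ℝ)|) := by
            calc v1 * (v * N) = v * (v1 * N) := by ring
              _ ≤ v * (-(j : ℝ) * |(h : ℝ)|) := mul_le_mul_of_nonneg_left h2 hv0.le
              _ = (v * (-(j : ℝ))) * |(h : ℝ)| := by ring
              _ ≤ (v1 * (-(j : ℝ) - 2 * v)) * |(h : ℝ)| := mul_le_mul_of_nonneg_right h3 hhabs.le
              _ = _ := by ring
          exact le_of_mul_le_mul_left h6 hv10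
        calc v * N ≤ (-(j : ℝ) - 2 * v) * |(h : ℝ)| := h5'
          _ ≤ _ := mul_le_mul_of_nonneg_right h1 hhabs.le
      · -- `-J < j < 0`
        push Not at hjJ
        have hqr : N ∣ q + (-j) * g := by
          have h1 : N ∣ (q + (-j) * g) * r := by
            obtain ⟨a, ha⟩ := hcongr
            obtain ⟨b, hb⟩ := hdvd
            refine ⟨2 * R + a - 2 * j * b, ?_⟩
            have e1 : q * r = h + 2 * N * R := by rw [hh]; ring
            linear_combination e1 + ha - j * hb
          exact hNr.symm.dvd_of_dvd_mul_right h1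
        have hqN : q = N - (-j) * g := by
          obtain ⟨z, hz⟩ := hqr
          have hjg : 0 < (-j) * g := mul_pos (by omega) hg
          have hjg2 : (-j) * g < J * g := mul_lt_mul_of_pos_right (by omega) hg
          have : z = 1 := z_one (by omega) (by omega) (by linarith) hz
          rw [this, mul_one] at hz
          linarith
        have hx1 : (q : ℝ) / N ≤ 1 := by
          rw [div_le_one hNpos]
          have : q ≤ N := by
            have hjg : 0 < (-j) * g := mul_pos (by omega) hg
            omega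
          exact_mod_cast this
        have hxv : (q : ℝ) / N * v ≤ v := by
          calc (q : ℝ) / N * v ≤ 1 * v := mul_le_mul_of_nonneg_right hx1 hv0.le
            _ = v := one_mul v
        have h1 : (-(j : ℝ)) - v ≤ |(j : ℝ) + (q : ℝ) / N * v| := by
          rw [abs_of_nonpos (by linarith)]
          linarith
        by_cases hj2 : 2 ≤ |j|
        · have h2 := hG1.2 hj2
          rw [habsj] at h2
          exact h2.trans (mul_le_mul_of_nonneg_right h1 hhabs.le)
        · have hjm : j = -1 := by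
            rw [abs_of_neg hjn] at hj2
            omega
          -- `h ≡ N - s mod 2 N`
          have h2 : 2 * N ∣ h - (N - s) := by
            obtain ⟨b, hb⟩ := hdvd
            obtain ⟨m, hm⟩ := hrodd
            refine ⟨m - b - R, ?_⟩
            rw [hh, hqN, hjm]
            linear_combination N * hm - hb
          have h3 : N - s ≤ |h| := by
            obtain ⟨m, hm⟩ := h2
            exact aux_h (by omega) hs0 hm
          have h3r : (N : ℝ) - s ≤ |(h : ℝ)| := by exact_mod_cast h3
          have h4 : (1 - θ) * N ≤ (N : ℝ) - s := by linarith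
          have hjr1 : (j : ℝ) = -1 := by rw [hjm]; norm_num
          rw [hjr1] at h1
          have h6 : (1 - v) * ((1 - θ) * N) ≤ |(-1 : ℝ) + (q : ℝ) / N * v| * |(h : ℝ)| := by
            apply mul_le_mul
            · have : -(-1 : ℝ) - v = 1 - v := by ring
              linarith
            · linarith
            · apply mul_nonneg _ hNpos.le
              linarith
            · exact abs_nonneg _
          rw [hjr1]
          refine le_trans ?_ h6
          have h7 : v ≤ (1 - v) * (1 - θ) :=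
            aux_th (by exact_mod_cast hC) hth0 hth2 hvt hθh
          calc v * N ≤ ((1 - v) * (1 - θ)) * N := mul_le_mul_of_nonneg_right h7 hNpos.le
            _ = _ := by ring
    · exact absurd (hj0 ▸ dvd_zero N) hNj
    · have hjr : (0 : ℝ) < j := by exact_mod_cast hjp
      have h2 := hG1.1
      refine h2.trans (mul_le_mul_of_nonneg_right ?_ hhabs.le)
      rw [abs_of_pos hjr, abs_of_pos (by linarith)]
      linarith

end Pool.Agent.TH91.MDS
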